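import Pool.Agent.Q54.CU.TB
import Pool.Agent.Z125.UN.Sym

/-!
# The generalized Tate-Beilinson conjecture over finite fields and trilinear forms

Let `k` be a finite field. For a trilinear form `T` over `k` in three blocks of `a`, `b` and `c`
variables let `hypS T` be the cubic hypersurface `T(x, y, z) = 1` in the affine space of dimension
`a + b + c`; it is smooth over `k`. We show that, for every `n`, the generalized Tate-Beilinson
conjecture `TB` holds for all separated schemes of finite type and dimension at most `n` over `k` if
and only if it holds for the hypersurfaces `T(x, y, z) = 1` of all trilinear forms `T` such that one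
of the three blocks has at most `n + 2` variables (forms with exactly `n + 2` variables in the third
block are sufficient), and that it holds for all hypersurfaces `T(x, y, z) = 1` of trilinear forms
which have a block with at most three variables, whatever the sizes of the two other blocks.

The geometric part (the libraries `Pool.Agent.Y116.UV` and `Pool.Agent.Z125.UN`) concerns arbitrary
properties of schemes of finite type with the closure properties `Bnd`; the theorem
`Q54.CU.bnd_tb` says that `TB` has them.
-/

namespace Pool.Agent.Results.MP_2ce3e7_ag.TensorFormats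

open Q54.CU CategoryTheory AlgebraicGeometry Pool.Agent.Y116.UV Pool.Agent.Z125.UN

/-- `TB` for the separated schemes of finite type over `k` of dimension at most `n`. -/
def TBDim {k K : Type} [Field k] [Field K] (D : ℤ → ℤ → Sch k → RegMod K) (n : ℕ) : Prop :=
  ∀ X : Sch k, FT True X → topologicalKrullDim X.left ≤ n → TB D X

/-- `TB` for the smooth separated schemes of finite type over `k` of dimension at most `n`. -/
def TBSmooth {k K : Type} [Field k] [Field K] (D : ℤ → ℤ → Sch k → RegMod K) (n : ℕ) : Prop :=
  ∀ X : Sch k, FT True X → Smooth X.hom → topologicalKrullDim X.left ≤ n → TB D X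

/-- `TB` for the hypersurfaces `T(x, y, z) = 1` of the trilinear forms `T` which have a block with at
most `m` variables. -/
def TBBlock {k K : Type} [Field k] [Field K] (D : ℤ → ℤ → Sch k → RegMod K) (m : ℕ) : Prop :=
  ∀ (a b c : ℕ) (T : Fin a → Fin b → Fin c → k), (a ≤ m ∨ b ≤ m ∨ c ≤ m) → TB D (hypS T)

/-- **The generalized Tate-Beilinson conjecture and trilinear forms.** -/
theorem result {k K : Type} [Field k] [Finite k] [Field K] (D : ℤ → ℤ → Sch k → RegMod K)
    (hD : IsRegulators D) (curves : TBSmooth D 1) :
    (∀ n : ℕ, List.TFAE [TBDim D n, TBSmooth D n, TBBlock D (n + 2),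
      ∀ (a b : ℕ) (T : Fin a → Fin b → Fin (n + 2) → k), TB D (hypS T)]) ∧
    TBBlock D 3 ∧
    ((∀ X : Sch k, FT True X → TB D X) ↔
      ∀ (a b c : ℕ) (T : Fin a → Fin b → Fin c → k), TB D (hypS T)) ∧
    ∀ (a b c : ℕ) (T : Fin a → Fin b → Fin c → k), FT True (hypS T) ∧ Smooth (hypS T).hom := by
  have hpt : TB D (aff k k) := by
    refine curves _ (ft_aff True) (smooth_aff inferInstance) ?_
    rw [topDim_aff, ringKrullDim_eq_zero_of_field]
    exact_mod_cast (by norm_num : (0 : ℕ) ≤ 1)
  have hB : Bnd True (TB D) := bnd_tb hD hpt
  have key : ∀ n : ℕ, List.TFAE [TBDim D n, TBSmooth D n, TBBlock D (n + 2),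
      ∀ (a b : ℕ) (T : Fin a → Fin b → Fin (n + 2) → k), TB D (hypS T)] := by
    intro n
    tfae_have 1 → 2 := fun h X hX _ hn => h X hX hn
    tfae_have 2 → 1 := fun h X hX hn => dim_smooth hB n h X hX hn
    tfae_have 1 → 3 := by
      intro h a b c T hm
      have h2 : ∀ I : Ideal (MvPolynomial (Fin (n + 1)) k),
          TB D (aff k (MvPolynomial (Fin (n + 1)) k ⧸ I)) :=
        dim_to_closed hB fun A _ _ _ hA => h _ (ft_aff True) (by rw [topDim_aff]; exact hA)
      exact of_block hB (fun a b c' hc' T => to_tri hB h2 a b c' hc' T) T hm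
    tfae_have 3 → 4 := fun h a b T => h a b (n + 2) T (Or.inr (Or.inr le_rfl))
    tfae_have 4 → 1 := fun h X hX hn => (dim_tri hB n).mpr h X hX hn
    tfae_finish
  have h3 : TBBlock D 3 := ((key 1).out 1 2).1 curves
  refine ⟨key, h3, ⟨fun h a b c T => h _ (ft_aff True), ?_⟩, fun a b c T =>
    ⟨ft_aff True, smooth_hypS T⟩⟩
  intro h X hX
  exact universal (S := Set.univ) hB.toUni trivial trivial (fun a b c T _ => h a b c T)
    presents_univ X hX

end Pool.Agent.Results.MP_2ce3e7_ag.TensorFormats
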