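import Mathlib
import Pool.Agent.Q124.TB.Main
import Pool.Agent.Q124.Lay.Count

/-!
# Jannsen's conjecture for schemes generated by products of abelian varieties and arbitrary
varieties

Fix a prime `p`, a nonempty finite set `κ`, dimensions `g i ≥ 1` and, for each `i`, a symmetric
Newton polygon with slopes `s i j` and `1 - s i j` (`j < g i`, increasing in `j`, between `0` and
`1 / 2`, with integral break points: `IsPolygon (s i)`) whose smallest slope is at most `σ < 1 / 2`;
so it is any Newton polygon that is not the supersingular one. `NewtonStratum g s p a` is the set
of families of isogeny classes of abelian varieties `A_i` of dimension `g i` over the field with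
`p ^ a` elements having these Newton polygons (by the theorem of Honda and Tate it consists of
families of characteristic polynomials of Frobenius). Let `devSum (s i)`, `sqSum (s i)` be the sums of
the numbers `1 - 2 s i j` and of their squares, and let `0 < δ ≤ 1`, `δ₂ > 0` be numbers such that
`δ g i ≤ devSum (s i)` and `δ₂ g i ≤ sqSum (s i)` for all `i`. So `δ = δ₂ = 1` if the `A_i` are
ordinary.

We prove that the number of elements of `NewtonStratum g s p a` tends to infinity with `a`, and that
for all members, except for at most

  `C * a * p ^ (- a (1 - 2 σ) / 6) * |NewtonStratum g s p a|`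

(`C` depends on `p`, `g`, `s`, `σ` only), the following is true.

Let `k` be the field with `Q = p ^ (a s')` elements, for any `s' > 0`. Let `𝒜` be the class of the
abelian varieties `A` over `k` which are isogenous to a product of powers of the `A_i`, of any
dimension, and let `X` be an element of `𝒜` in which all `A_i` occur, for instance the product of the
`A_i`. Let `𝒵` be the class of all smooth projective varieties `Z` over `k` with one of the
following properties; nothing is assumed on relations between the Frobenius eigenvalues of `Z` and
of `A`, and the exceptional set is independent of `Z`.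

* (`IsProduct`) The homologically trivial self-correspondences of degree zero of `Z` are nilpotent
  (`Nilpotence`; by Kimura and O'Sullivan this is so for all curves and for all varieties dominated by
  products of curves, and it is conjectured for all `Z`), and the conjecture `TB (X ^ n × Z)` is true,
  where `n` is any number such that the level of `Z` is smaller than `(n + 1) δ`. Here `Z` has level at
  most `e` if the slopes of `H ^ w (Z)` lie between `(w - e) / 2` and `(w + e) / 2`; `e = dim Z` is
  always possible, so that one can take `n = dim Z` if the `A_i` are ordinary. In fact
  `TB (X ^ n × Z)` is only needed for the cycles of codimension `c ≤ dim Z + (n - ⌊e⌋) / 2`.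
* (`IsNarrowProduct`) `δ > 1 / 3`, and `Z` is a curve, or a surface with `Nilpotence` and `TB (Z)`
  such that each Frobenius eigenvalue `ρ` on `H ^ 2 (Z)` has its slopes in `(1 - δ, 1 + δ)`, or the mean
  of `(λ - 1) ^ 2`, `λ` the slopes of the conjugates of `ρ`, is smaller than `δ₂ / 2`. For instance `Z`
  is the product of two curves, the Jacobian of one of which has no slope `0`, if the `A_i` are
  ordinary: then all hypotheses are theorems (Tate, Soulé). More generally `Z` can be a variety of any
  dimension `d` with `Nilpotence` and `TB (Z)` and similar conditions on the slopes of `H ^ w (Z)`,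
  `1 < w < 2 d - 1`. The other hypothesis, on the cycles of codimension one on `X × Z`, follows by the
  theorem of Tate on homomorphisms of abelian varieties from `TB (Z)`.

Let `𝒢` be the class generated by the products `A × Z`, `A` in `𝒜` and `Z` in `𝒵` (`Generated`): the
smallest class of separated schemes of finite type over `k` which contains them, the schemes whose
motives are direct summands of finite sums of twists of motives of members, and all of `Y`, `X`,
`X ∖ Y` if it contains two of them, `Y` a closed subscheme of `X`. By base change of localization
sequences `𝒢` contains all products `A × U`, `A` in `𝒜`, for all schemes `U` in the class generated by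
`𝒵`: for instance for all schemes `U` of dimension one, and for many open and singular surfaces.

**Theorem** (`JannsenTheorem`): the conjecture `TB (X)` holds for all `X` in `𝒢`: for all `i` and `j`
the regulator induces an isomorphism of `CH_j (X, i - 2 j) ⊗ ℚ_ℓ` with the space of the Frobenius
invariants in `H_i (X, ℚ_ℓ(j))`, and the eigenvalue one of Frobenius is semisimple.

The formal statement. `V` is the class of all separated schemes of finite type over `k`, `S` their
motivic and `ℓ`-adic homology (`Homology`), `𝒱` a class of smooth projective varieties closed under
products, `C` and `T m` their Chow groups and higher Chow groups, `H` their `ℓ`-adic cohomology,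
with coefficients extended to an algebraic closure of `ℚ_ℓ`. `IsRealization` lists the known facts
which relate them. `IsTripleFor`, with an abelian variety `B` in the place of `X ^ n`, lists known
facts on `A`, `B` and `Z`: the cohomology of `A`, `B`, `A × A`, `A × B` is generated by `H ^ 1`, where
Frobenius has the given eigenvalues, and the theorem of Tate on divisors on them; the nilpotence for
`A` (Kimura, Shermenev), and for `Z`. `HasInverse` (the isomorphism `H ^ (2 d - 1) (Z) → H ^ 1 (Z)` is
given by a divisor on `Z × Z`) is known for all `Z` (Kleiman).

The proof. For smooth projective `Y` the statement `TB (Y)` is equivalent to the vanishing of the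
higher Chow groups, of the kernel of the cycle map with coefficients extended to `K`, and of the space
of the Tate classes modulo algebraic classes. Each of these three is a theory on which correspondences
act, and such that Frobenius acts on the part of codimension `c` as multiplication by `Q ^ c`. For such
a theory `T`, the vanishing of `T ^ c (A × Z)` follows from the vanishing of `T ^ c' (X ^ n × Z)`,
`c' ≤ c` (this is the machine of MP_de59b4_ag UniversalFactor and MP_cb388a_ag UniversalFactor): by
nilpotence there would be eigenvalues `α` on `H(A)` and `β` on `H(Z)` with `α β = Q ^ c`; after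
removing pairs of roots with product `Q` from `α` one gets, by the sieve and the valuations of the
conjugates, a product of at most `n` roots, which is an eigenvalue on `H(X ^ n)`, and the component of
the diagonal of `A` which belongs to `α` factors through `X ^ n` up to nilpotent correspondences. The
passage to the class `𝒢` is due to Jannsen.
-/

set_option autoImplicit false

namespace Pool.Agent.Results.MP_2ce3e7_ag.UniversalFactor

open Polynomial Pool.Agent.Q124.Lay Pool.Agent.Q124.TB

/-- The theorem for the family of isogeny classes over the field with `q` elements with the
Frobenius polynomials `F i`, of dimension `g i` and slopes `s i j`. -/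
def Holds {κ : Type} (g : κ → ℕ) (s : ∀ i, Fin (g i) → ℚ) (q : ℕ) (F : κ → ℤ[X]) : Prop :=
  ∀ δ δ₂ : ℝ, 0 < δ → δ ≤ 1 → 0 < δ₂ → (∀ i, δ * g i ≤ devSum (s i)) →
    (∀ i, δ₂ * g i ≤ sqSum (s i)) →
    JannsenTheorem δ δ₂ q F

/-- **Jannsen's conjecture for all schemes generated by products `A × Z`, for the abelian varieties
`A` outside of a thin subset of a Newton stratum.** -/
theorem result {κ : Type} [Fintype κ] [Nonempty κ] (p : ℕ) [Fact p.Prime]
    -- dimensions and Newton polygons
    (g : κ → ℕ) (hg : ∀ i, 1 ≤ g i) (s : ∀ i, Fin (g i) → ℚ) (hs : ∀ i, IsPolygon (s i))
    -- the smallest slopes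
    (σ : ℚ) (hσ : ∀ i (h : 0 < g i), s i ⟨0, h⟩ ≤ σ) (hσ2 : σ < 1 / 2) :
    (∀ N : ℕ, ∃ a₀ : ℕ, ∀ a, a₀ ≤ a →
      (NewtonStratum g s p a).Finite ∧ N ≤ (NewtonStratum g s p a).ncard) ∧
    ∃ C : ℝ, 0 < C ∧ ∀ a : ℕ, 0 < a →
      ({F ∈ NewtonStratum g s p a | ¬ Holds g s (p ^ a) F}.ncard : ℝ) ≤
        C * (a * (p : ℝ) ^ (-((a : ℝ) * (1 - 2 * σ) / 6))) *
          ((NewtonStratum g s p a).ncard : ℝ) :=
  count p g hg s hs σ hσ hσ2 (fun δ δ₂ q F => JannsenTheorem δ δ₂ q F)
    fun _ _ _ _ hq hδ0 hδ1 hδ₂ hB hM =>
    jannsenTheorem hB hM hδ0 hδ1 hδ₂ hq

end Pool.Agent.Results.MP_2ce3e7_ag.UniversalFactor
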